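import Pool.Agent.Y175.PW.Quad

set_option autoImplicit false

/-!
# Regular neighbourhoods of the numbers `n` with `n ^ 2 - 2` prime

Let `R r` be the set of the `n` for which all prime factors of `n ^ 2 - 2` are larger than
`n ^ (1 / r)`. It contains, up to finitely many elements, the set counted by `P_(-2)`. For an ARBITRARY
subset `A` of `R r`, in every short interval all but a small proportion of the expected number of
elements of `A` are regular points of `A`: around them `A` has the expected order of magnitude in all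
windows, and a constant density at all but boundedly many dyadic scales.
-/

namespace Pool.Agent.Results.MP_0b748d_nt.RegularNeighbourhoods

open Finset Filter
open Pool.Agent.TH977.PW (N Irregular)

/-- All prime factors of `n ^ 2 - 2` are larger than `n ^ (1 / r)`. -/
def R (r : ℕ) : Set ℕ :=
  {n | ∀ p : ℕ, p.Prime → (p : ℤ) ∣ (n : ℤ) ^ 2 - 2 → (n : ℝ) ^ (1 / (r : ℝ)) < (p : ℝ)}

/-- **Regular neighbourhoods of the numbers `n` with `n ^ 2 - 2` prime.** -/
theorem result (θ : ℝ) (hθ : 0 < θ) (hθ1 : θ ≤ 1) :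
    ∃ r₀ : ℕ, 2 ≤ r₀ ∧ ∀ r : ℕ, r₀ ≤ r →
      (∀ᶠ n : ℕ in atTop, (n ^ 2 - 2).Prime → n ∈ R r) ∧
      (∃ κ : ℝ, 0 < κ ∧ ∀ᶠ X : ℕ in atTop, ∀ Y : ℕ, (X : ℝ) ^ θ ≤ Y → Y ≤ X →
          κ * Y / Real.log X ≤
            N {n | n ∈ R r ∧ (n ^ 2 - 2).primeFactorsList.length ≤ r} X (X + Y)) ∧
      ∀ ε : ℝ, 0 < ε → ∃ c : ℝ, 0 < c ∧ ∀ δ : ℝ, 0 < δ → ∃ B : ℕ,
        ∀ᶠ X : ℕ in atTop, ∀ Y : ℕ, (X : ℝ) ^ θ ≤ Y → 2 * Y ≤ X → ∀ A : Set ℕ, A ⊆ R r →
          (N (Irregular A 1 c δ B X Y) X (X + Y) : ℝ) ≤ ε * Y / Real.log X := by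
  have hval : ∀ m : ℕ, (1 : ℤ) * (m : ℤ) ^ 2 + 0 * m + (-2) = (m : ℤ) ^ 2 - 2 := fun m => by ring
  have habs : ∀ m : ℕ, 2 ≤ m → ((m : ℤ) ^ 2 - 2).natAbs = m ^ 2 - 2 := by
    intro m hm
    have h1 : 2 ≤ m ^ 2 := by nlinarith
    have h2 : ((m : ℤ) ^ 2 - 2) = ((m ^ 2 - 2 : ℕ) : ℤ) := by
      rw [Nat.cast_sub h1]
      push_cast
      ring
    rw [h2, Int.natAbs_natCast]
  obtain ⟨r0, hr0, h0⟩ := Pool.Agent.Y175.PW.final_quad 1 0 (-2) one_pos
    (fun p hp h => by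
      have : p ∣ 1 := by exact_mod_cast h.1
      exact hp.one_lt.ne' (Nat.dvd_one.1 this))
    (by
      rintro ⟨s, hs⟩
      have h1 : s * s = 8 := by linarith
      have h2 : -4 < s := by nlinarith
      have h3 : s < 4 := by nlinarith
      interval_cases s <;> omega)
    (fun h => by
      have h1 := h.1
      rw [add_zero] at h1
      exact absurd h1 (by decide))
    R (fun r => {n | n ∈ R r ∧ ((n : ℤ) ^ 2 - 2).natAbs.primeFactorsList.length ≤ r})
    (fun r m _ hm p hp hd => hm p hp (by rwa [hval] at hd))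
    (fun r m _ h1 h2 => ⟨fun p hp hd => h1 p hp (by rwa [hval]), by rwa [hval] at h2⟩) θ hθ hθ1
  refine ⟨r0, hr0, fun r hr => ⟨?_, ?_, (h0 r hr).2⟩⟩
  · filter_upwards [eventually_ge_atTop 4] with n hn hq p hp hd
    have hl := Pool.Agent.Y175.PW.quad_large 1 0 (-2) one_pos n (by simpa using hn)
    rw [hval] at hl
    exact Pool.Agent.Y175.PW.rough_of_prime r n _ (hr0.trans hr) (by omega)
      (by rw [habs n (by omega)]; exact hq) hl p hp hd
  · obtain ⟨κ, hκ, h1⟩ := (h0 r hr).1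
    refine ⟨κ, hκ, ?_⟩
    filter_upwards [h1, eventually_ge_atTop 2] with X hX hX2 Y hY hYX
    refine (hX Y hY hYX).trans ?_
    refine Nat.cast_le.2 (Pool.Agent.TH977.PW.N_mono _ _ _ _ fun n hn _ h => ⟨h.1, ?_⟩)
    have h3 := h.2
    rwa [habs n (by omega)] at h3

end Pool.Agent.Results.MP_0b748d_nt.RegularNeighbourhoods
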