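import Pool.Agent.Y816.PD.Chain

set_option autoImplicit false

/-!
# Numbers `n ^ 2 - 2` with few prime factors, at integers with restricted digits

The integers `n < b ^ K` whose `i`-th digit in base `b` belongs to an arbitrary set `A i` (for all `i < K`)
are considered, the product of the `|A i|` being at least `exp (- c K) b ^ K`.
-/

namespace Pool.Agent.Results.MP_0b748d_nt.RestrictedDigits

open Finset Filter
open Pool.Agent.Y816.PD (ND NA)

/-- All prime factors of `n ^ 2 - 2` are larger than `n ^ (1 / r)`. -/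
def R (r : ℕ) : Set ℕ :=
  {n | ∀ p : ℕ, p.Prime → (p : ℤ) ∣ (n : ℤ) ^ 2 - 2 → (n : ℝ) ^ (1 / (r : ℝ)) < (p : ℝ)}

/-- The `n` of `R r` for which `n ^ 2 - 2` has at most `r` prime factors. -/
def P (r : ℕ) : Set ℕ :=
  {n | n ∈ R r ∧ ((n : ℤ) ^ 2 - 2).natAbs.primeFactorsList.length ≤ r}

/-- **Numbers `n ^ 2 - 2` with few prime factors at integers with restricted digits.** -/
theorem result :
    ∃ c : ℝ, 0 < c ∧ ∃ r₀ : ℕ, 2 ≤ r₀ ∧ ∀ r : ℕ, r₀ ≤ r →
      (∀ n : ℕ, (n ^ 2 - 2).Prime → n ∈ R r) ∧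
      ∀ b : ℕ, 2 ≤ b → ∃ κ C : ℝ, 0 < κ ∧ 0 < C ∧ ∀ᶠ K : ℕ in atTop, ∀ A : ℕ → Finset ℕ,
        (∀ i < K, A i ⊆ range b) → (b : ℝ) ^ K ≤ Real.exp (c * K) * NA K A →
        ((∃ d ∈ A 0, IsCoprime ((d : ℤ) ^ 2 - 2) (b : ℤ)) → κ * NA K A / (K : ℝ) ≤ ND b K A (P r)) ∧
        (ND b K A (R r) : ℝ) ≤ C * NA K A / (K : ℝ) := by
  have hval : ∀ m : ℕ, (1 : ℤ) * (m : ℤ) ^ 2 + 0 * m + (-2) = (m : ℤ) ^ 2 - 2 := fun m => by ring
  obtain ⟨c, hc, r₀, hr₀, h⟩ := Pool.Agent.Y816.PD.digits_quad 1 0 (-2) one_pos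
    (fun p hp h => by
      have : p ∣ 1 := by exact_mod_cast h.1
      exact hp.one_lt.ne' (Nat.dvd_one.1 this))
    (by
      rintro ⟨s, hs⟩
      have h1 : s * s = 8 := by linarith
      have h2 : -4 < s := by nlinarith
      have h3 : s < 4 := by nlinarith
      interval_cases s <;> omega)
    (fun p hp => ⟨1, fun hd => by
      rw [hval] at hd
      norm_num at hd
      have : p ∣ 1 := by exact_mod_cast hd
      exact hp.one_lt.ne' (Nat.dvd_one.1 this)⟩)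
    R P
    (fun r m _ hm p hp hd => hm p hp (by rwa [hval] at hd))
    (fun r m _ h1 h2 => ⟨fun p hp hd => h1 p hp (by rwa [hval]), by rwa [hval] at h2⟩)
    (fun b n => IsCoprime ((n : ℤ) ^ 2 - 2) (b : ℤ))
    (fun b n _ h p hp hpb hd => by
      rw [hval] at hd
      have h2 : IsUnit (p : ℤ) := h.isUnit_of_dvd' hd (Int.natCast_dvd_natCast.2 hpb)
      rw [Int.isUnit_iff] at h2
      have := hp.one_lt
      omega)
  simp only [pow_one] at h
  refine ⟨c, hc, r₀, hr₀, fun r hr => ⟨fun n hn p hp hd => ?_, h r hr⟩⟩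
  have h2r : 2 ≤ r := hr₀.trans hr
  have hn2 : 2 ≤ n := by
    by_contra hcon
    have h1 : n ≤ 1 := by omega
    have h2 : n ^ 2 ≤ 1 := by nlinarith
    have h3 : n ^ 2 - 2 = 0 := by omega
    rw [h3] at hn
    exact hn.ne_zero rfl
  have hd' : p ∣ n ^ 2 - 2 := by
    have h1 : 2 ≤ n ^ 2 := by nlinarith
    have h2 : ((n : ℤ) ^ 2 - 2) = ((n ^ 2 - 2 : ℕ) : ℤ) := by
      rw [Nat.cast_sub h1]
      push_cast
      ring
    rw [h2, Int.natCast_dvd_natCast] at hd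
    exact hd
  rw [(Nat.prime_dvd_prime_iff_eq hp hn).1 hd']
  exact Pool.Agent.TH977.PW.rpow_lt_of_le r n _ h2r hn2 (by
    have h1 : n + 2 ≤ n ^ 2 := by nlinarith
    omega)

end Pool.Agent.Results.MP_0b748d_nt.RestrictedDigits
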